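import Pool.Agent.Q295.LB.Stm

set_option autoImplicit false

/-!
# Jobs LB-CON, LB-R2U, LB-R2L: the cycle
-/

namespace Pool.Agent.Q272.LB

open Pool.Agent.Q295.LB

variable {n : ℕ} [NeZero n]

lemma one_ne (hn : 3 ≤ n) : (1 : ZMod n) ≠ 0 := by
  haveI : Fact (1 < n) := ⟨by omega⟩
  exact one_ne_zero

lemma adj_succ (hn : 3 ≤ n) (u : ZMod n) : (cyc n).Adj u (u + 1) := by
  refine ⟨?_, Or.inl rfl⟩
  intro h
  have : (1 : ZMod n) = 0 := by
    have h2 : u + 0 = u + 1 := by rw [add_zero]; exact h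
    exact (add_left_cancel h2).symm
  exact one_ne hn this

lemma exists_walk (hn : 3 ≤ n) (u : ZMod n) (k : ℕ) :
    ∃ p : (cyc n).Walk u (u + (k : ZMod n)), p.length = k := by
  induction k with
  | zero =>
    rw [Nat.cast_zero, add_zero]
    exact ⟨SimpleGraph.Walk.nil, rfl⟩
  | succ k ih =>
    obtain ⟨p, hp⟩ := ih
    have e : u + ((k + 1 : ℕ) : ZMod n) = u + (k : ZMod n) + 1 := by push_cast; ring
    rw [e]
    refine ⟨p.append (SimpleGraph.Walk.cons (adj_succ hn _) SimpleGraph.Walk.nil), ?_⟩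
    rw [SimpleGraph.Walk.length_append, hp]
    rfl

lemma dist_le (hn : 3 ≤ n) (u : ZMod n) (k : ℕ) : (cyc n).dist u (u + (k : ZMod n)) ≤ k := by
  obtain ⟨p, hp⟩ := exists_walk hn u k
  exact (SimpleGraph.dist_le p).trans hp.le

lemma connected (hn : 3 ≤ n) : (cyc n).Connected := by
  haveI : Nonempty (ZMod n) := ⟨0⟩
  refine ⟨fun u v => ?_⟩
  obtain ⟨p, -⟩ := exists_walk hn u ((v - u).val)
  have e : u + (((v - u).val : ℕ) : ZMod n) = v := by
    rw [ZMod.natCast_zmod_val]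
    ring
  rw [e] at p
  exact ⟨p⟩

/-- Job LB-CON. -/
theorem con : S_CON := by
  intro n _ hn
  refine ⟨connected hn, ?_⟩
  intro u v
  refine ⟨⟨Equiv.addRight (v - u), ?_⟩, ?_⟩
  · intro a b
    show (a + (v - u) ≠ b + (v - u) ∧
      (b + (v - u) = a + (v - u) + 1 ∨ a + (v - u) = b + (v - u) + 1)) ↔
      (a ≠ b ∧ (b = a + 1 ∨ a = b + 1))
    have h1 : a + (v - u) + 1 = (a + 1) + (v - u) := by ring
    have h2 : b + (v - u) + 1 = (b + 1) + (v - u) := by ring
    rw [h1, h2]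
    simp only [ne_eq, add_left_inj]
  · show u + (v - u) = v
    ring

lemma ceil_mem (hn : 3 ≤ n) : ∀ u : ZMod n, Real.log (Fintype.card (ZMod n)) ≤
    ((⌈√(Real.log n)⌉₊ : ℕ) : ℝ) *
      (Nat.card {v : ZMod n // (cyc n).dist u v ≤ ⌈√(Real.log n)⌉₊} : ℝ) := by
  intro u
  set r := ⌈√(Real.log n)⌉₊ with hr
  have hn0 : (3 : ℝ) ≤ n := by exact_mod_cast hn
  have hlog0 : 0 ≤ Real.log n := Real.log_nonneg (by linarith)
  have hr1 : √(Real.log n) ≤ r := Nat.le_ceil _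
  have hr2 : (r : ℝ) < √(Real.log n) + 1 := Nat.ceil_lt_add_one (Real.sqrt_nonneg _)
  have hlog1 : Real.log n ≤ n - 1 := Real.log_le_sub_one_of_pos (by linarith)
  have hs : √(Real.log n) ≤ n - 1 := by
    rw [Real.sqrt_le_left (by linarith)]
    nlinarith
  have hrn : r < n := by
    have : (r : ℝ) < n := by linarith
    exact_mod_cast this
  have hcard : r + 1 ≤ Nat.card {v : ZMod n // (cyc n).dist u v ≤ r} := by
    have h1 : Nat.card (Fin (r + 1)) ≤ Nat.card {v : ZMod n // (cyc n).dist u v ≤ r} := by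
      apply Nat.card_le_card_of_injective
        (fun i : Fin (r + 1) => (⟨u + ((i : ℕ) : ZMod n),
          (dist_le hn u i).trans (Nat.lt_succ_iff.1 i.2)⟩ : {v : ZMod n // (cyc n).dist u v ≤ r}))
      intro i j hij
      simp only [Subtype.mk.injEq, add_right_inj] at hij
      rw [ZMod.natCast_eq_natCast_iff'] at hij
      have hi := i.2
      have hj := j.2
      rw [Nat.mod_eq_of_lt (by omega), Nat.mod_eq_of_lt (by omega)] at hij
      exact Fin.ext hij
    rwa [Nat.card_fin] at h1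
  rw [ZMod.card]
  have h2 : ((r : ℝ) + 1) ≤ (Nat.card {v : ZMod n // (cyc n).dist u v ≤ r} : ℝ) := by
    exact_mod_cast hcard
  have h3 : Real.log n = √(Real.log n) ^ 2 := (Real.sq_sqrt hlog0).symm
  have h4 : √(Real.log n) ^ 2 ≤ (r : ℝ) ^ 2 := pow_le_pow_left₀ (Real.sqrt_nonneg _) hr1 2
  have h5 : (0 : ℝ) ≤ r := Nat.cast_nonneg r
  nlinarith

/-- Job LB-R2U. -/
theorem r2u : S_R2U := by
  intro n _ hn
  have h1 : R2 (cyc n) ≤ ⌈√(Real.log n)⌉₊ := Nat.sInf_le (ceil_mem hn)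
  have h2 : ((⌈√(Real.log n)⌉₊ : ℕ) : ℝ) < √(Real.log n) + 1 :=
    Nat.ceil_lt_add_one (Real.sqrt_nonneg _)
  have h3 : (R2 (cyc n) : ℝ) ≤ ((⌈√(Real.log n)⌉₊ : ℕ) : ℝ) := by exact_mod_cast h1
  linarith

lemma walk_end (u v : ZMod n) (p : (cyc n).Walk u v) :
    ∃ j : ℤ, |j| ≤ p.length ∧ v = u + (j : ZMod n) := by
  induction p with
  | nil => exact ⟨0, by simp, by simp⟩
  | cons h p ih =>
    obtain ⟨j, hj, hv⟩ := ih
    rw [SimpleGraph.Walk.length_cons]
    rcases h.2 with h2 | h2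
    · refine ⟨j + 1, ?_, ?_⟩
      · have := abs_add_le j 1
        push_cast
        simp only [abs_one] at this
        omega
      · rw [hv, h2]
        push_cast
        ring
    · refine ⟨j - 1, ?_, ?_⟩
      · have := abs_sub j 1
        push_cast
        simp only [abs_one] at this
        omega
      · rw [hv, h2]
        push_cast
        ring

lemma ball_card (hn : 3 ≤ n) (u : ZMod n) (r : ℕ) :
    Nat.card {v : ZMod n // (cyc n).dist u v ≤ r} ≤ 2 * r + 1 := by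
  classical
  have h1 : {v : ZMod n | (cyc n).dist u v ≤ r} ⊆
      ((Finset.Icc (-(r : ℤ)) r).image fun j : ℤ => u + (j : ZMod n) : Finset (ZMod n)) := by
    intro v hv
    obtain ⟨p, hp⟩ := (connected hn).exists_walk_length_eq_dist u v
    obtain ⟨j, hj, hvj⟩ := walk_end u v p
    rw [Finset.mem_coe, Finset.mem_image]
    refine ⟨j, ?_, hvj.symm⟩
    rw [Finset.mem_Icc]
    have h2 : (cyc n).dist u v ≤ r := hv
    have h3 := abs_le.1 hj
    rw [hp] at h3
    omega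
  calc Nat.card {v : ZMod n // (cyc n).dist u v ≤ r}
      = Set.ncard {v : ZMod n | (cyc n).dist u v ≤ r} := rfl
    _ ≤ Set.ncard (((Finset.Icc (-(r : ℤ)) r).image fun j : ℤ => u + (j : ZMod n) :
        Finset (ZMod n)) : Set (ZMod n)) := Set.ncard_le_ncard h1 (Finset.finite_toSet _)
    _ = ((Finset.Icc (-(r : ℤ)) r).image fun j : ℤ => u + (j : ZMod n)).card :=
        Set.ncard_coe_finset _
    _ ≤ (Finset.Icc (-(r : ℤ)) r).card := Finset.card_image_le
    _ = 2 * r + 1 := by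
        rw [Int.card_Icc]
        omega

/-- Job LB-R2L. -/
theorem r2l : S_R2L := by
  intro n _ hn
  have hmem : R2 (cyc n) ∈ {r : ℕ | ∀ u : ZMod n,
      Real.log (Fintype.card (ZMod n)) ≤
        (r : ℝ) * (Nat.card {v : ZMod n // (cyc n).dist u v ≤ r} : ℝ)} :=
    Nat.sInf_mem ⟨_, ceil_mem hn⟩
  have h1 := hmem 0
  rw [ZMod.card] at h1
  have h2 : (Nat.card {v : ZMod n // (cyc n).dist 0 v ≤ R2 (cyc n)} : ℝ) ≤
      2 * (R2 (cyc n) : ℝ) + 1 := by exact_mod_cast ball_card hn 0 (R2 (cyc n))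
  have h3 : (0 : ℝ) ≤ R2 (cyc n) := Nat.cast_nonneg _
  nlinarith

end Pool.Agent.Q272.LB
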